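import Mathlib

set_option autoImplicit false

open Filter Topology Set

namespace Pool.Agent.H.MP_3dc43d_an

theorem exists_minimal {Z : Type*} [TopologicalSpace Z] [CompactSpace Z] [T2Space Z] [Nonempty Z]
    (σ : Z → Z) (hσ : Continuous σ) :
    ∃ L : Set Z, L.Nonempty ∧ IsClosed L ∧ MapsTo σ L L ∧
      ∀ O : Set Z, IsOpen O → (O ∩ L).Nonempty → ∃ N : ℕ, ∀ q ∈ L, ∃ n ≤ N, σ^[n] q ∈ O := by
  let S : Set (Set Z) := {L | L.Nonempty ∧ IsClosed L ∧ MapsTo σ L L}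
  obtain ⟨L, -, hL⟩ := zorn_superset_nonempty S (fun c hc hchain hne => by
    refine ⟨⋂₀ c, ⟨?_, isClosed_sInter fun t ht => (hc ht).2.1, ?_⟩,
      fun s hs => sInter_subset_of_mem hs⟩
    · have := hne.to_subtype
      exact IsCompact.nonempty_sInter_of_directed_nonempty_isCompact_isClosed
        (fun a ha b hb => by
          rcases hchain.total ha hb with h | h
          · exact ⟨a, ha, subset_rfl, h⟩
          · exact ⟨b, hb, h, subset_rfl⟩) (fun U hU => (hc hU).1) (fun U hU => (hc hU).2.1.isCompact)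
        (fun U hU => (hc hU).2.1)
    · intro x hx t ht
      exact (hc ht).2.2 (hx t ht)) univ ⟨univ_nonempty, isClosed_univ, mapsTo_univ _ _⟩
  obtain ⟨hne, hcl, hinv⟩ := hL.prop
  refine ⟨L, hne, hcl, hinv, fun O hO hOL => ?_⟩
  have h1 : ∀ q ∈ L, ∃ n, σ^[n] q ∈ O := by
    intro q hq
    have hsub : closure (range fun n => σ^[n] q) ⊆ L :=
      closure_minimal (by rintro _ ⟨n, rfl⟩; exact hinv.iterate n hq) hcl
    have hmem : closure (range fun n => σ^[n] q) ∈ S := by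
      refine ⟨⟨q, subset_closure ⟨0, rfl⟩⟩, isClosed_closure, MapsTo.closure ?_ hσ⟩
      rintro _ ⟨n, rfl⟩
      exact ⟨n + 1, Function.iterate_succ_apply' σ n q⟩
    have heq := hL.le_of_le hmem hsub
    obtain ⟨z, hzO, hzL⟩ := hOL
    obtain ⟨_, hw, n, rfl⟩ := mem_closure_iff.1 (heq hzL) O hO hzO
    exact ⟨n, hw⟩
  obtain ⟨t, ht⟩ := hcl.isCompact.elim_finite_subcover (fun n : ℕ => σ^[n] ⁻¹' O)
    (fun n => hO.preimage (hσ.iterate n)) (fun q hq => mem_iUnion.2 (h1 q hq))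
  refine ⟨t.sup id, fun q hq => ?_⟩
  obtain ⟨n, hn, hq'⟩ := mem_iUnion₂.1 (ht hq)
  exact ⟨n, Finset.le_sup (f := id) hn, hq'⟩

/-- The shift on ultrafilters. -/
def sh (p : Ultrafilter ℕ) : Ultrafilter ℕ := p.map (· + 1)

theorem sh_cont : Continuous sh := by
  refine ultrafilterBasis_is_basis.continuous_iff.2 ?_
  rintro _ ⟨s, rfl⟩
  exact ultrafilter_isOpen_basic _

theorem mem_sh (n : ℕ) (p : Ultrafilter ℕ) (A : Set ℕ) :
    A ∈ sh^[n] p ↔ {k | k + n ∈ A} ∈ p := by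
  induction n generalizing A with
  | zero => simp
  | succ n ih =>
    rw [Function.iterate_succ_apply', sh, Ultrafilter.mem_map, ih]
    rfl

theorem main {𝕂 : Type*} [NontriviallyNormedField 𝕂] {X : Type*} [NormedAddCommGroup X]
    [NormedSpace 𝕂 X] [CompleteSpace X] [TopologicalSpace.SeparableSpace X] (T : X →L[𝕂] X)
    (hT : Dense {x : X | ∀ U ∈ 𝓝 x, ∃ N : ℕ, ∀ m : ℕ, ∃ n : ℕ,
          m ≤ n ∧ n ≤ m + N ∧ 1 ≤ n ∧ (T ^ n) x ∈ U}) :
    ∃ M : Submodule 𝕂 X, Dense (M : Set X) ∧ (∀ x ∈ M, T x ∈ M) ∧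
      ∀ x ∈ M, ∀ U ∈ 𝓝 x, ∃ N : ℕ, ∀ m : ℕ, ∃ n : ℕ,
        m ≤ n ∧ n ≤ m + N ∧ 1 ≤ n ∧ (T ^ n) x ∈ U := by
  obtain ⟨L, hne, hcl, hinv, hmin⟩ := exists_minimal sh sh_cont
  set R := {x : X | ∀ U ∈ 𝓝 x, ∃ N : ℕ, ∀ m : ℕ, ∃ n : ℕ,
          m ≤ n ∧ n ≤ m + N ∧ 1 ≤ n ∧ (T ^ n) x ∈ U} with hR
  -- return sets of uniformly recurrent vectors meet the minimal set
  have hsyn : ∀ x ∈ R, ∀ U ∈ 𝓝 x, ({u : Ultrafilter ℕ | {k | (T ^ k) x ∈ U} ∈ u} ∩ L).Nonempty := by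
    intro x hx U hU
    obtain ⟨N, hN⟩ := hx U hU
    obtain ⟨q, hq⟩ := hne
    have : (⋃ j ∈ Iic N, {k | (T ^ (k + j)) x ∈ U}) ∈ q := by
      refine Filter.univ_mem' fun m => ?_
      obtain ⟨n, h1, h2, -, h3⟩ := hN m
      refine mem_iUnion₂.2 ⟨n - m, by simp; omega, ?_⟩
      rwa [mem_ofPred_eq, Nat.add_sub_cancel' h1]
    obtain ⟨j, -, hj⟩ := (Ultrafilter.finite_biUnion_mem_iff (finite_Iic N)).1 this
    exact ⟨sh^[j] q, (mem_sh j q _).2 hj, hinv.iterate j hq⟩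
  have hlim : ∀ (p : Ultrafilter ℕ) (x y : X), Tendsto (fun k => (T ^ k) x) p (𝓝 y) →
      ∀ (n : ℕ) (V : Set X), IsClosed V → {k | (T ^ k) x ∈ V} ∈ sh^[n] p → (T ^ n) y ∈ V := by
    intro p x y h n V hV hn
    rw [mem_sh] at hn
    refine hV.mem_of_tendsto (((T ^ n).continuous.tendsto y).comp h) ?_
    filter_upwards [hn] with k hk
    rw [add_comm, pow_add] at hk
    exact hk
  -- Baire category
  have : CompactSpace L := isCompact_iff_compactSpace.1 hcl.isCompact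
  have : Nonempty L := hne.to_subtype
  obtain ⟨c, hcR, hcc, hcd⟩ := hT.exists_countable_dense_subset
  have := hcc.to_subtype
  let G : c × ℕ → Set L := fun i =>
    {u | ∃ z : X, {k | (T ^ k) (i.1 : X) ∈ Metric.ball z (1 / ((i.2 : ℝ) + 1))} ∈ (u : Ultrafilter ℕ)}
  have hGo : ∀ i, IsOpen (G i) := by
    intro i
    simp only [G, ofPred_exists]
    exact isOpen_iUnion fun z => (ultrafilter_isOpen_basic _).preimage continuous_subtype_val
  have hGd : ∀ i, Dense (G i) := by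
    rintro ⟨⟨x, hx⟩, k⟩
    refine dense_iff_inter_open.2 ?_
    rintro _ ⟨O, hO, rfl⟩ ⟨u, hu⟩
    obtain ⟨N, hN⟩ := hmin O hO ⟨u, hu, u.2⟩
    have hU : (⋂ n ∈ Iic N, (T ^ n) ⁻¹' Metric.ball ((T ^ n) x) (1 / ((k : ℝ) + 1))) ∈ 𝓝 x := by
      refine (biInter_mem (finite_Iic N)).2 fun n _ => ?_
      exact (T ^ n).continuous.continuousAt.preimage_mem_nhds
        (Metric.ball_mem_nhds _ (by positivity))
    obtain ⟨q, hq1, hq2⟩ := hsyn x (hcR hx) _ hU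
    obtain ⟨n, hn, hnO⟩ := hN q hq2
    refine ⟨⟨sh^[n] q, hinv.iterate n hq2⟩, hnO, (T ^ n) x, ?_⟩
    change _ ∈ sh^[n] q
    rw [mem_sh]
    refine Filter.mem_of_superset hq1 fun m hm => ?_
    have := mem_iInter₂.1 hm n hn
    simp only [mem_ofPred_eq]
    rw [add_comm m n, pow_add]
    exact this
  obtain ⟨p, hp⟩ := (dense_iInter_of_isOpen hGo hGd).nonempty
  have hex : ∀ x ∈ c, ∃ y, Tendsto (fun k => (T ^ k) x) (p : Ultrafilter ℕ) (𝓝 y) := by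
    intro x hx
    refine cauchy_map_iff_exists_tendsto.1 ?_
    refine Metric.cauchy_iff.2 ⟨inferInstance, fun ε hε => ?_⟩
    obtain ⟨k, hk⟩ := exists_nat_one_div_lt (half_pos hε)
    obtain ⟨z, hz⟩ := mem_iInter.1 hp (⟨x, hx⟩, k)
    refine ⟨_, hz, fun a ha b hb => ?_⟩
    have := dist_triangle_right a b z
    rw [Metric.mem_ball] at ha hb
    linarith
  let M : Submodule 𝕂 X :=
    { carrier := {y | ∃ x, Tendsto (fun k => (T ^ k) x) (p : Ultrafilter ℕ) (𝓝 y)}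
      add_mem' := by
        rintro a b ⟨x, hx⟩ ⟨y, hy⟩
        exact ⟨x + y, by simpa using hx.add hy⟩
      zero_mem' := ⟨0, by simp⟩
      smul_mem' := by
        rintro a b ⟨x, hx⟩
        exact ⟨a • x, by simpa using hx.const_smul a⟩ }
  have hMT : ∀ (n : ℕ), ∀ x ∈ M, (T ^ n) x ∈ M := by
    rintro n y ⟨x, hx⟩
    refine ⟨(T ^ n) x, (((T ^ n).continuous.tendsto y).comp hx).congr fun k => ?_⟩
    change (T ^ n * T ^ k) x = (T ^ k * T ^ n) x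
    rw [← pow_add, ← pow_add, add_comm]
  refine ⟨M, ?_, fun x hx => by simpa using hMT 1 x hx, ?_⟩
  · refine Dense.of_closure (hcd.mono fun x hx => ?_)
    obtain ⟨y, hy⟩ := hex x hx
    rw [mem_closure_iff_nhds]
    intro U hU
    obtain ⟨V, hV, hVc, hVU⟩ := exists_mem_nhds_isClosed_subset hU
    obtain ⟨N, hN⟩ := hmin _ (ultrafilter_isOpen_basic _) (hsyn x (hcR hx) V hV)
    obtain ⟨n, -, hn⟩ := hN p p.2
    exact ⟨(T ^ n) y, hVU (hlim p x y hy n V hVc hn), hMT n y ⟨x, hy⟩⟩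
  · rintro y ⟨x, hx⟩ U hU
    obtain ⟨V, hV, hVc, hVU⟩ := exists_mem_nhds_isClosed_subset hU
    obtain ⟨N, hN⟩ := hmin _ (ultrafilter_isOpen_basic {k | (T ^ k) x ∈ V}) ⟨p, hx hV, p.2⟩
    refine ⟨N + 1, fun m => ?_⟩
    obtain ⟨n, hn, hn'⟩ := hN (sh^[m + 1] p) (hinv.iterate _ p.2)
    rw [← Function.iterate_add_apply] at hn'
    exact ⟨n + (m + 1), by omega, by omega, by omega, hVU (hlim p x y hx _ V hVc hn')⟩

end Pool.Agent.H.MP_3dc43d_an
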